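import Pool.Agent.AT5.Stmts1
import Pool.Agent.Helper34_K9.INX
import Pool.Agent.Helper20_PP.Ibr
import Pool.Agent.Helper94_PP.Pos2
import Pool.Agent.Helper74_PP.Orbit

/-!
# Squad AT5, row ORS: a class fixed by a group of automorphisms of prime power order
-/

open scoped BigOperators

noncomputable section

namespace Pool.Agent.PP.T5.H86

open Pool.Agent.Helper51_AWC Pool.Agent.Helper79_WRA Pool.Agent.PP Pool.Agent.PP.KF
open Pool.Agent.PP.K9 Pool.Agent.PP.K9.H97 Pool.Agent.PP.H75 Pool.Agent.PP.T3 Pool.Agent.PP.T2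

section abs

variable {F H : Type} [Field F] [Group H] [Finite H]

/-- the central character of a block, as a linear form -/
theorem exists_char {ℓ : ℕ} (hF : GoodF ℓ F) {b : H → F} (hb : IsBlk b) :
    ∃ lam : (H → F) →ₗ[F] F, H50.IsChar (fun a : H → F => lam a) ∧ lam b = 1 := by
  have h1 : ∃ (n : ℕ) (ρ : H →* Matrix (Fin n) (Fin n) F), IsIrr ρ ∧ ev ρ b ≠ 0 := by
    by_contra hcon
    push Not at hcon
    obtain ⟨k, hk⟩ := H20.ibn ℓ F hF H b hcon
    have h2 : ∀ j : ℕ, (mulF b)^[j] b = b := by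
      intro j
      induction j with
      | zero => rfl
      | succ j ih => rw [Function.iterate_succ_apply', ih, hb.1.2]
    rw [h2] at hk
    exact hb.2.1 hk
  obtain ⟨n, ρ, hρ, hne⟩ := h1
  let i : Fin n := ⟨0, hρ.1⟩
  let lam : (H → F) →ₗ[F] F := (Matrix.entryLinearMap F F i i) ∘ₗ H94.evL ρ
  have hlam : ∀ a : H → F, lam a = ev ρ a i i := by
    intro a
    change (H94.evL ρ a) i i = _
    rw [H94.evL_apply]
  have hsc : ∀ a : H → F, IsCl a → ev ρ a = Matrix.scalar (Fin n) (lam a) := by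
    intro a ha
    obtain ⟨w, hw, -, -⟩ := H20.eig F H n ρ hρ a ha
    rw [hlam a, hw]
    simp
  refine ⟨lam, ⟨fun a b _ _ => map_sub lam a b, fun c a _ => ?_, fun a b ha hb => ?_⟩, ?_⟩
  · change lam (c • a) = c * lam a
    rw [map_smul, smul_eq_mul]
  · change lam (mulF a b) = lam a * lam b
    rw [hlam (mulF a b), H20.ev_mulF, hsc a ha, hsc b hb, ← map_mul]
    simp
  · obtain ⟨w, hw, -, h01⟩ := H20.eig F H n ρ hρ b hb.1.1
    rcases h01 hb.1 with h | h
    · exfalso
      apply hne
      rw [hw, h, map_zero]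
    · rw [hlam b, hw, h]
      simp

omit [Finite H] in
theorem cl_out {b : H → F} (hb : IsCl b) {x y : H} (h : IsConj x y) : b x = b y := by
  obtain ⟨z, hz⟩ := isConj_iff.1 h
  rw [← hz]
  exact (hb x z).symm

omit [Finite H] in
theorem clsum_congr {x y : H} (h : IsConj x y) :
    clsum F (⊤ : Subgroup H) x = clsum F (⊤ : Subgroup H) y := by
  classical
  obtain ⟨z, hz⟩ := isConj_iff.1 h
  funext t
  unfold clsum
  have : (∃ q ∈ (⊤ : Subgroup H), t = q * x * q⁻¹) ↔ ∃ q ∈ (⊤ : Subgroup H), t = q * y * q⁻¹ := by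
    constructor
    · rintro ⟨q, -, hq⟩
      refine ⟨q * z⁻¹, Subgroup.mem_top _, ?_⟩
      rw [hq, ← hz]
      group
    · rintro ⟨q, -, hq⟩
      refine ⟨q * z, Subgroup.mem_top _, ?_⟩
      rw [hq, ← hz]
      group
  exact if_congr this rfl rfl

/-- a class function is a combination of the class sums -/
theorem sum_classes [Fintype (ConjClasses H)] {b : H → F} (hb : IsCl b) :
    b = ∑ K : ConjClasses H, b (Quotient.out K) • clsum F (⊤ : Subgroup H) (Quotient.out K) := by
  classical
  funext y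
  rw [Finset.sum_apply, Finset.sum_eq_single (ConjClasses.mk y)]
  · have h1 : IsConj (Quotient.out (ConjClasses.mk y)) y :=
      ConjClasses.mk_eq_mk_iff_isConj.1 (Quotient.out_eq (ConjClasses.mk y))
    rw [Pi.smul_apply, cl_out hb h1, clsum_congr h1]
    unfold clsum
    rw [if_pos ⟨1, Subgroup.mem_top _, by group⟩, smul_eq_mul, mul_one]
  · intro K _ hK
    rw [Pi.smul_apply]
    unfold clsum
    rw [if_neg, smul_zero]
    rintro ⟨q, -, hq⟩
    apply hK
    have h2 : IsConj (Quotient.out K) y := isConj_iff.2 ⟨q, hq.symm⟩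
    rw [← ConjClasses.mk_eq_mk_iff_isConj] at h2
    rw [← h2]
    exact (Quotient.out_eq K).symm
  · intro h
    exact absurd (Finset.mem_univ _) h

/-- the action of a group of automorphisms on the classes -/
def actC {P : Type} [Group P] (φ : P →* MulAut H) : MulAction P (ConjClasses H) where
  smul p c := ConjClasses.map (φ p).toMonoidHom c
  one_smul c := by
    induction c using Quotient.inductionOn with
    | h x =>
      change ConjClasses.mk (φ 1 x) = ConjClasses.mk x
      rw [map_one]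
      rfl
  mul_smul p q c := by
    induction c using Quotient.inductionOn with
    | h x =>
      change ConjClasses.mk (φ (p * q) x) = ConjClasses.mk (φ p (φ q x))
      rw [map_mul]
      rfl

theorem fixed_class {ℓ : ℕ} (hF : GoodF ℓ F) {b : H → F} (hb : IsBlk b) {P : Type} [Group P]
    [Finite P] (hP : IsPGroup ℓ P) (φ : P →* MulAut H) (hφ : ∀ p x, b (φ p x) = b x) :
    ∃ c : H, b c ≠ 0 ∧ Inv (clsum F (⊤ : Subgroup H) c) b ∧ ∀ p, IsConj (φ p c) c := by
  classical
  have := Fintype.ofFinite (ConjClasses H)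
  have := hF.char
  have hℓ : Fact ℓ.Prime := ⟨hF.prime⟩
  obtain ⟨lam, hl, h1⟩ := exists_char hF hb
  let inst : MulAction P (ConjClasses H) := actC φ
  have hinv : ∀ p (x : H), lam (clsum F (⊤ : Subgroup H) (φ p x)) =
      lam (clsum F (⊤ : Subgroup H) x) := by
    intro p x
    have hl' := H34.isChar_comp (φ p) hl
    have h2 := H50.char_uniq hb hl hl' h1 (by
      change lam (fun x => b (φ p x)) = 1
      have h3 : (fun x => b (φ p x)) = b := funext fun x => hφ p x
      rw [h3]
      exact h1) (H50.isCl_clsum (F := F) (φ p x))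
    have h4 : (fun z => clsum F (⊤ : Subgroup H) (φ p x) (φ p z)) = clsum F (⊤ : Subgroup H) x := by
      funext z
      unfold clsum
      have hiff : (∃ q ∈ (⊤ : Subgroup H), φ p z = q * φ p x * q⁻¹) ↔
          ∃ q ∈ (⊤ : Subgroup H), z = q * x * q⁻¹ := by
        constructor
        · rintro ⟨q, -, hq⟩
          refine ⟨(φ p).symm q, Subgroup.mem_top _, (φ p).injective ?_⟩
          rw [map_mul, map_mul, map_inv, MulEquiv.apply_symm_apply]
          exact hq
        · rintro ⟨q, -, hq⟩
          exact ⟨φ p q, Subgroup.mem_top _, by rw [hq, map_mul, map_mul, map_inv]⟩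
      simp only [hiff]
    change lam (clsum F (⊤ : Subgroup H) (φ p x)) =
      lam (fun z => clsum F (⊤ : Subgroup H) (φ p x) (φ p z)) at h2
    rw [h4] at h2
    exact h2
  have hout : ∀ x : H, IsConj (Quotient.out (ConjClasses.mk x)) x := fun x =>
    ConjClasses.mk_eq_mk_iff_isConj.1 (Quotient.out_eq (ConjClasses.mk x))
  have hsum : ∑ K : ConjClasses H, b (Quotient.out K) *
      lam (clsum F (⊤ : Subgroup H) (Quotient.out K)) = 1 := by
    rw [← h1]
    conv_rhs => rw [sum_classes hb.1.1]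
    rw [map_sum]
    exact Finset.sum_congr rfl fun K _ => by rw [map_smul, smul_eq_mul]
  rw [Pool.Agent.PP.H74.orbit_sum_ring hP _ ?_] at hsum
  · obtain ⟨K, hK, hK0⟩ := Finset.exists_ne_zero_of_sum_ne_zero (by rw [hsum]; exact one_ne_zero)
    have hfix := (Finset.mem_filter.1 hK).2
    refine ⟨Quotient.out K, left_ne_zero_of_mul hK0, ?_, ?_⟩
    · rcases H50.blk_dich hb (H50.isCl_clsum (F := F) (Quotient.out K)) with ⟨n, hn⟩ | h3
      · exfalso
        apply right_ne_zero_of_mul hK0
        exact H50.zero_of_nil hb.1.1 (H50.isCl_clsum _) hl h1 hn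
      · exact h3
    · intro p
      rw [← ConjClasses.mk_eq_mk_iff_isConj]
      have h5 : ConjClasses.mk (Quotient.out K) = K := Quotient.out_eq K
      have h6 := hfix p
      rw [← h5] at h6
      exact h6
  · intro p K
    induction K using Quotient.inductionOn with
    | h x =>
      have h2 : IsConj (Quotient.out (ConjClasses.mk (φ p x))) (φ p x) := hout _
      change b (Quotient.out (ConjClasses.mk (φ p x))) *
        lam (clsum F (⊤ : Subgroup H) (Quotient.out (ConjClasses.mk (φ p x)))) =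
        b (Quotient.out (ConjClasses.mk x)) *
        lam (clsum F (⊤ : Subgroup H) (Quotient.out (ConjClasses.mk x)))
      rw [cl_out hb.1.1 h2, cl_out hb.1.1 (hout x), clsum_congr h2, clsum_congr (hout x), hinv p x,
        hφ p x]

end abs

section grp

variable {G : Type} [Group G]

/-- conjugation by an element which normalises `C` -/
def cjC (C : Subgroup G) (t : G) (ht : t ∈ Subgroup.normalizer (C : Set G)) : C ≃* C where
  toFun x := ⟨t * x * t⁻¹, (Subgroup.mem_normalizer_iff.1 ht x).1 x.2⟩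
  invFun x := ⟨t⁻¹ * x * t, by
    have := (Subgroup.mem_normalizer_iff.1 (inv_mem ht) x).1 x.2
    rwa [inv_inv] at this⟩
  left_inv x := Subtype.ext (by change t⁻¹ * (t * x * t⁻¹) * t = x; group)
  right_inv x := Subtype.ext (by change t * (t⁻¹ * x * t) * t⁻¹ = x; group)
  map_mul' x y := Subtype.ext (by
    change t * (x * y) * t⁻¹ = t * x * t⁻¹ * (t * y * t⁻¹)
    group)

/-- the action of a subgroup of the normaliser -/
def cjH (C P : Subgroup G) (hP : P ≤ Subgroup.normalizer (C : Set G)) : P →* MulAut C where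
  toFun p := cjC C p (hP p.2)
  map_one' := by
    apply MulEquiv.ext
    intro x
    apply Subtype.ext
    change ((1 : P) : G) * x * ((1 : P) : G)⁻¹ = x
    simp
  map_mul' p q := by
    apply MulEquiv.ext
    intro x
    apply Subtype.ext
    change ((p * q : P) : G) * x * ((p * q : P) : G)⁻¹ = p * (q * x * (q : G)⁻¹) * (p : G)⁻¹
    push_cast
    group

end grp

theorem ors : OrsStmt := by
  intro ℓ hℓ F _ hF G _ _ C S hCS hSN hidx β hβ hst
  obtain ⟨n, hn⟩ := hidx
  -- a Sylow subgroup of `S`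
  have hCn : (C.subgroupOf S).Normal := by
    constructor
    intro c hc s
    rw [Subgroup.mem_subgroupOf] at hc ⊢
    exact (Subgroup.mem_normalizer_iff.1 (hSN s.2) c).1 hc
  obtain ⟨P₀⟩ : Nonempty (Sylow ℓ S) := inferInstance
  have hsup : (P₀ : Subgroup S) ⊔ C.subgroupOf S = ⊤ := by
    rw [← Subgroup.index_eq_one]
    have h1 : ((P₀ : Subgroup S) ⊔ C.subgroupOf S).index ∣ (P₀ : Subgroup S).index :=
      Subgroup.index_dvd_of_le le_sup_left
    have h2 : ((P₀ : Subgroup S) ⊔ C.subgroupOf S).index ∣ ℓ ^ n := by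
      rw [← hn]
      exact Subgroup.index_dvd_of_le le_sup_right
    have h3 : ¬ ℓ ∣ (P₀ : Subgroup S).index := P₀.not_dvd_index
    obtain ⟨m, -, hm⟩ := (Nat.dvd_prime_pow hℓ.out).1 h2
    rcases Nat.eq_zero_or_pos m with h0 | h0
    · rw [hm, h0, pow_zero]
    · exfalso
      apply h3
      refine dvd_trans ?_ h1
      rw [hm]
      exact dvd_pow_self ℓ h0.ne'
  let P : Subgroup G := (P₀ : Subgroup S).map S.subtype
  have hPN : P ≤ Subgroup.normalizer (C : Set G) := by
    rintro _ ⟨s, -, rfl⟩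
    exact hSN s.2
  have hPp : IsPGroup ℓ P := P₀.isPGroup'.map S.subtype
  obtain ⟨c, hc0, hci, hcf⟩ := fixed_class hF hβ.blk hPp (cjH C P hPN) (by
    intro p x
    obtain ⟨s, hs, hsp⟩ := p.2
    have h1 : cj (p : G) β = β := hst p (by rw [← hsp]; exact s.2)
    have h2 : β ((p : G) * x * (p : G)⁻¹) = cj (p : G) β ((p : G) * x * (p : G)⁻¹) := by rw [h1]
    have h3 : cj (p : G) β ((p : G) * x * (p : G)⁻¹) = β x := by
      unfold cj
      congr 1
      group
    exact h2.trans h3)
  refine ⟨c, c.2, hc0, ?_, ?_⟩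
  · have h1 : (fun t : C => clsum F C (c : G) t) = clsum F (⊤ : Subgroup C) c :=
      H94.clsum_restrict C c
    rw [h1]
    exact hci
  · intro s hs
    have h1 : (⟨s, hs⟩ : S) ∈ (P₀ : Subgroup S) ⊔ C.subgroupOf S := by
      rw [hsup]
      exact Subgroup.mem_top _
    rw [sup_comm, Subgroup.mem_sup_of_normal_left] at h1
    obtain ⟨x₀, hx₀, p, hp, hxp⟩ := h1
    have hsx : s = x₀ * p := congrArg Subtype.val hxp.symm
    have hpP : (p : G) ∈ P := ⟨p, hp, rfl⟩
    have h2 := hcf ⟨p, hpP⟩
    obtain ⟨z, hz⟩ := isConj_iff.1 h2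
    have hz' : (z : G) * (p * c * (p : G)⁻¹) * (z : G)⁻¹ = c := congrArg Subtype.val hz
    refine ⟨z * (x₀ : G)⁻¹, mul_mem z.2 (inv_mem hx₀), ?_⟩
    have h3 : (z : G) * (x₀ : G)⁻¹ * s = z * p := by
      rw [hsx]
      group
    rw [h3]
    calc (z : G) * p * c = z * (p * c * (p : G)⁻¹) * (z : G)⁻¹ * (z * p) := by group
      _ = c * (z * p) := by rw [hz']

end Pool.Agent.PP.T5.H86
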